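import Mathlib

/-!
# A pseudocompact Baire paratopological group which is not 2-pseudocompact

`K` is the Cantor group, `L` the ordered abelian group of germs at infinity of sequences of integers
(every countable subset of `L` has an upper bound, and `L` has no largest element). The group is
`K × L`; the neighbourhoods of the identity are the sets of the `(u, l)` with `u ∈ U`, `0 ≤ l`, and
`c ≤ l` if `u ≠ 0`, where `U` is a neighbourhood of the identity of `K` and `0 ≤ c ∈ L`.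
-/

set_option autoImplicit false

namespace Pool.Agent.Results.MP_39d387_al.PseudocompactBaire

open Topology Set

variable (G : Type) [TopologicalSpace G]

/-- Pseudocompact: every locally finite family of nonempty open sets is finite. -/
def Pseudocompact : Prop :=
  ∀ F : Set (Set G), (∀ O ∈ F, IsOpen O ∧ O.Nonempty) →
    (∀ x : G, ∃ U ∈ 𝓝 x, {O ∈ F | (O ∩ U).Nonempty}.Finite) → F.Finite

/-- Baire: every countable intersection of dense open subsets is dense. -/
def Baire : Prop :=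
  ∀ D : ℕ → Set G, (∀ n, IsOpen (D n)) → (∀ n, Dense (D n)) → Dense (⋂ n, D n)

/-- 2-pseudocompact: `⋂ closure (U n)⁻¹` is nonempty for all nonincreasing sequences of nonempty open
sets. -/
def TwoPseudocompact [Group G] : Prop :=
  ∀ U : ℕ → Set G, (∀ n, IsOpen (U n)) → (∀ n, (U n).Nonempty) → (∀ n, U (n + 1) ⊆ U n) →
    (⋂ n, closure {x | x⁻¹ ∈ U n}).Nonempty

namespace Build

/-- the Cantor group -/
abbrev K : Type := ℕ → ZMod 2

/-- germs of sequences of integers -/
abbrev L : Type := Filter.Germ (Filter.atTop : Filter ℕ) ℤ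

theorem exists_ub (f : ℕ → L) : ∃ b : L, ∀ n, f n ≤ b := by
  choose g hg using fun n => Quotient.exists_rep (f n)
  refine ⟨((fun m => ∑ n ∈ Finset.range (m + 1), |g n m| : ℕ → ℤ) : L), fun n => ?_⟩
  have h1 : f n = ((g n : ℕ → ℤ) : L) := (hg n).symm
  rw [h1, Filter.Germ.coe_le]
  filter_upwards [Filter.eventually_ge_atTop n] with m hm
  have h2 : |g n m| ≤ ∑ k ∈ Finset.range (m + 1), |g k m| :=
    Finset.single_le_sum (f := fun k => |g k m|) (fun _ _ => abs_nonneg _)
      (Finset.mem_range.2 (by omega))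
  exact le_trans (le_abs_self _) h2

theorem exists_ub3 (a b c : L) : ∃ d : L, a ≤ d ∧ b ≤ d ∧ c ≤ d := by
  obtain ⟨d, hd⟩ := exists_ub (fun n => if n = 0 then a else if n = 1 then b else c)
  exact ⟨d, by simpa using hd 0, by simpa using hd 1, by simpa using hd 2⟩

theorem one_pos' : (0 : L) < 1 := by
  rw [lt_iff_le_not_ge]
  constructor
  · change (((fun _ => 0) : ℕ → ℤ) : L) ≤ (((fun _ => 1) : ℕ → ℤ) : L)
    rw [Filter.Germ.coe_le]
    exact Filter.Eventually.of_forall fun _ => zero_le_one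
  · change ¬ (((fun _ => 1) : ℕ → ℤ) : L) ≤ (((fun _ => 0) : ℕ → ℤ) : L)
    rw [Filter.Germ.coe_le]
    intro h
    obtain ⟨n, hn⟩ := h.exists
    exact absurd hn (by norm_num)

/-- the group -/
def G0 : Type := K × L

instance : AddCommGroup G0 := inferInstanceAs (AddCommGroup (K × L))

/-- basic neighbourhood of zero -/
def N (U : Set K) (c : L) : Set G0 := {p | p.1 ∈ U ∧ 0 ≤ p.2 ∧ (p.1 ≠ 0 → c ≤ p.2)}

instance : TopologicalSpace G0 where
  IsOpen W := ∀ x ∈ W, ∃ U : Set K, IsOpen U ∧ (0 : K) ∈ U ∧ ∃ c : L, 0 ≤ c ∧ ∀ v ∈ N U c, x + v ∈ W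
  isOpen_univ := fun x _ => ⟨univ, isOpen_univ, trivial, 0, le_rfl, fun _ _ => trivial⟩
  isOpen_inter := by
    intro W W' h h' x hx
    obtain ⟨U, hU, h0, c, hc, hv⟩ := h x hx.1
    obtain ⟨U', hU', h0', c', hc', hv'⟩ := h' x hx.2
    refine ⟨U ∩ U', hU.inter hU', ⟨h0, h0'⟩, c + c', add_nonneg hc hc', ?_⟩
    rintro v ⟨h1, h2, h3⟩
    exact ⟨hv v ⟨h1.1, h2, fun h => (le_add_of_nonneg_right hc').trans (h3 h)⟩,
      hv' v ⟨h1.2, h2, fun h => (le_add_of_nonneg_left hc).trans (h3 h)⟩⟩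
  isOpen_sUnion := by
    intro S hS x hx
    obtain ⟨W, hW, hxW⟩ := hx
    obtain ⟨U, hU, h0, c, hc, hv⟩ := hS W hW x hxW
    exact ⟨U, hU, h0, c, hc, fun v h => ⟨W, hW, hv v h⟩⟩

theorem isOpen_iff' (W : Set G0) : IsOpen W ↔
    ∀ x ∈ W, ∃ U : Set K, IsOpen U ∧ (0 : K) ∈ U ∧ ∃ c : L, 0 ≤ c ∧ ∀ v ∈ N U c, x + v ∈ W :=
  Iff.rfl

/-- translates of basic sets -/
def T (x : G0) (U : Set K) (c : L) : Set G0 := {y | y - x ∈ N U c}

theorem isOpen_T (x : G0) {U : Set K} (hU : IsOpen U) {c : L} (hc : 0 ≤ c) : IsOpen (T x U c) := by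
  rw [isOpen_iff']
  rintro y ⟨h1, h2, h3⟩
  refine ⟨{u | (y - x).1 + u ∈ U}, hU.preimage (continuous_const.add continuous_id), ?_, c, hc, ?_⟩
  · simpa using h1
  · rintro v ⟨g1, g2, g3⟩
    have e1 : (y + v - x).1 = (y - x).1 + v.1 := by
      change y.1 + v.1 - x.1 = y.1 - x.1 + v.1
      abel
    have e2 : (y + v - x).2 = (y - x).2 + v.2 := by
      change y.2 + v.2 - x.2 = y.2 - x.2 + v.2
      abel
    refine ⟨?_, ?_, ?_⟩
    · rw [e1]; exact g1
    · rw [e2]; exact add_nonneg h2 g2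
    · rw [e1, e2]
      intro h
      by_cases hv : v.1 = 0
      · rw [hv, add_zero] at h
        exact (h3 h).trans (le_add_of_nonneg_right g2)
      · exact (g3 hv).trans (le_add_of_nonneg_left h2)

theorem mem_T_self (x : G0) {U : Set K} (h0 : (0 : K) ∈ U) (c : L) : x ∈ T x U c := by
  change x - x ∈ N U c
  rw [sub_self]
  exact ⟨h0, le_rfl, fun h => absurd rfl h⟩

theorem T_subset {x : G0} {U : Set K} {c : L} {W : Set G0} (h : ∀ v ∈ N U c, x + v ∈ W) :
    T x U c ⊆ W := by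
  intro y hy
  have := h _ hy
  rwa [add_sub_cancel] at this

theorem exists_T {W : Set G0} (hW : IsOpen W) {x : G0} (hx : x ∈ W) :
    ∃ U : Set K, IsOpen U ∧ (0 : K) ∈ U ∧ ∃ c : L, 0 ≤ c ∧ T x U c ⊆ W := by
  obtain ⟨U, hU, h0, c, hc, h⟩ := hW x hx
  exact ⟨U, hU, h0, c, hc, T_subset h⟩

instance : ContinuousAdd G0 := by
  refine ⟨continuous_def.2 fun W hW => ?_⟩
  rw [isOpen_prod_iff]
  intro x y hxy
  obtain ⟨U, hU, h0, c, hc, hT⟩ := exists_T hW hxy
  have hcont : Continuous fun p : K × K => p.1 + p.2 := continuous_add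
  have hO : IsOpen ((fun p : K × K => p.1 + p.2) ⁻¹' U) := hU.preimage hcont
  rw [isOpen_prod_iff] at hO
  obtain ⟨A, B, hA, hB, hA0, hB0, hAB⟩ := hO 0 0 (by simpa using h0)
  refine ⟨T x A c, T y B c, isOpen_T x hA hc, isOpen_T y hB hc, mem_T_self x hA0 c,
    mem_T_self y hB0 c, ?_⟩
  rintro ⟨x', y'⟩ ⟨⟨a1, a2, a3⟩, ⟨b1, b2, b3⟩⟩
  apply hT
  change x' + y' - (x + y) ∈ N U c
  have e : x' + y' - (x + y) = (x' - x) + (y' - y) := by abel
  rw [e]
  refine ⟨?_, add_nonneg a2 b2, ?_⟩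
  · exact hAB (Set.mk_mem_prod a1 b1)
  · intro h
    by_cases hx' : (x' - x).1 = 0
    · have hy' : (y' - y).1 ≠ 0 := by
        intro hy'
        apply h
        change (x' - x).1 + (y' - y).1 = 0
        rw [hx', hy', add_zero]
      exact (b3 hy').trans (le_add_of_nonneg_left a2)
    · exact (a3 hx').trans (le_add_of_nonneg_right b2)

theorem t0 : T0Space G0 := by
  rw [t0Space_iff_not_inseparable]
  intro x y hxy hins
  by_cases h1 : x.1 = y.1
  · have h2 : x.2 ≠ y.2 := fun h => hxy (Prod.ext h1 h)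
    have key : ∀ x y : G0, Inseparable x y → x.1 = y.1 → x.2 ≤ y.2 := by
      intro x y hins h1
      have h3 : y ∈ T x univ 0 :=
        (hins.mem_open_iff (isOpen_T x isOpen_univ le_rfl)).1 (mem_T_self x (mem_univ _) 0)
      have h4 : 0 ≤ (y - x).2 := h3.2.1
      exact sub_nonneg.1 h4
    exact h2 (le_antisymm (key x y hins h1) (key y x hins.symm h1.symm))
  · obtain ⟨U, V, hU, hV, hxU, hyV, hd⟩ := t2_separation (X := K) h1
    have hO : IsOpen (T x {u | x.1 + u ∈ U} 0) :=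
      isOpen_T x (hU.preimage (continuous_const.add continuous_id)) le_rfl
    have h3 := (hins.mem_open_iff hO).1 (mem_T_self x (by simpa using hxU) 0)
    have h4 : x.1 + (y - x).1 ∈ U := h3.1
    have h5 : x.1 + (y - x).1 = y.1 := by
      change x.1 + (y.1 - x.1) = y.1
      abel
    rw [h5] at h4
    exact Set.disjoint_left.1 hd h4 hyV

theorem pseudocompact : Pseudocompact G0 := by
  intro F hF hloc
  by_contra hinf
  have hinf' : Infinite F := Set.infinite_coe_iff.2 hinf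
  choose p hp using fun O : F => (hF O.1 O.2).2
  obtain ⟨x, hx⟩ := exists_clusterPt_of_compactSpace
    (Filter.map (fun O : F => ((p O).1 : K)) Filter.cofinite)
  obtain ⟨W, hW, hfin⟩ := hloc ((x, 0) : K × L)
  obtain ⟨W', hW'W, hW'o, hxW'⟩ := mem_nhds_iff.1 hW
  obtain ⟨U, hU, h0, c, hc, hT⟩ := exists_T hW'o hxW'
  have hxU : {a : K | a - x ∈ U} ∈ 𝓝 x :=
    (hU.preimage (continuous_id.sub continuous_const)).mem_nhds (by simpa using h0)
  have hfreq : ∃ᶠ O : F in Filter.cofinite, (p O).1 - x ∈ U := by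
    have := (clusterPt_iff_frequently.1 hx) _ hxU
    exact this
  rw [Filter.frequently_cofinite_iff_infinite] at hfreq
  apply (hfreq.image (f := Subtype.val) Subtype.val_injective.injOn)
  refine hfin.subset ?_
  rintro _ ⟨O, hO, rfl⟩
  refine ⟨O.2, ?_⟩
  obtain ⟨d, hd1, hd2, hd3⟩ := exists_ub3 (p O).2 0 c
  refine ⟨(((p O).1, d) : K × L), ?_, hW'W (hT ?_)⟩
  · obtain ⟨U', hU', h0', c', hc', hT'⟩ := exists_T (hF O.1 O.2).1 (hp O)
    apply hT'
    refine ⟨?_, ?_, ?_⟩
    · change (p O).1 - (p O).1 ∈ U'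
      rw [sub_self]; exact h0'
    · exact sub_nonneg.2 hd1
    · intro h
      exact absurd (sub_self (p O).1) h
  · refine ⟨hO, ?_, ?_⟩
    · change 0 ≤ d - 0
      rw [sub_zero]; exact hd2
    · intro _
      change c ≤ d - 0
      rw [sub_zero]; exact hd3

/-- states of the construction for the Baire property -/
structure St where
  x : G0
  U : Set K
  hU : IsOpen U
  h0 : (0 : K) ∈ U
  c : L
  hc : 0 ≤ c

theorem step (D : Set G0) (hD : IsOpen D) (hd : Dense D) (s : St) :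
    ∃ t : St, T t.x t.U t.c ⊆ D ∧ T t.x t.U t.c ⊆ T s.x s.U s.c ∧
      closure {a : K | a - t.x.1 ∈ t.U} ⊆ {a : K | a - s.x.1 ∈ s.U} := by
  obtain ⟨y, hyT, hyD⟩ := hd.inter_open_nonempty _ (isOpen_T s.x s.hU s.hc)
    ⟨s.x, mem_T_self s.x s.h0 s.c⟩
  obtain ⟨U, hU, h0, c, hc, hT⟩ := exists_T ((isOpen_T s.x s.hU s.hc).inter hD) ⟨hyT, hyD⟩
  have hO : IsOpen ({a : K | a - s.x.1 ∈ s.U} ∩ {a : K | a - y.1 ∈ U}) :=
    (s.hU.preimage (continuous_id.sub continuous_const)).inter
      (hU.preimage (continuous_id.sub continuous_const))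
  have hyO : y.1 ∈ ({a : K | a - s.x.1 ∈ s.U} ∩ {a : K | a - y.1 ∈ U}) :=
    ⟨hyT.1, by simpa using h0⟩
  obtain ⟨C, hC, hCc, hCO⟩ := exists_mem_nhds_isClosed_subset (hO.mem_nhds hyO)
  obtain ⟨C', hC'C, hC'o, hyC'⟩ := mem_nhds_iff.1 hC
  refine ⟨⟨y, {u | y.1 + u ∈ C'}, hC'o.preimage (continuous_const.add continuous_id),
    by simpa using hyC', c, hc⟩, ?_⟩
  have hsub : {a : K | a - y.1 ∈ {u | y.1 + u ∈ C'}} ⊆ C := by
    intro a ha
    have : y.1 + (a - y.1) ∈ C' := ha
    rw [add_sub_cancel] at this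
    exact hC'C this
  have hTT : T y {u | y.1 + u ∈ C'} c ⊆ T s.x s.U s.c ∩ D := by
    refine Subset.trans ?_ hT
    rintro z ⟨z1, z2, z3⟩
    refine ⟨?_, z2, z3⟩
    have h1 : z.1 ∈ C := hsub z1
    exact (hCO h1).2
  refine ⟨fun z hz => (hTT hz).2, fun z hz => (hTT hz).1, ?_⟩
  exact (closure_minimal hsub hCc).trans (hCO.trans inter_subset_left)

theorem baire : Baire G0 := by
  intro D hD hd
  rw [dense_iff_inter_open]
  rintro O hO ⟨x, hx⟩
  obtain ⟨U, hU, h0, c, hc, hT⟩ := exists_T hO hx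
  choose nx h1 h2 h3 using fun n => step (D n) (hD n) (hd n)
  let s : ℕ → St := fun n => Nat.rec ⟨x, U, hU, h0, c, hc⟩ (fun n t => nx n t) n
  have hs : ∀ n, s (n + 1) = nx n (s n) := fun n => rfl
  have hmono : ∀ n, T (s (n + 1)).x (s (n + 1)).U (s (n + 1)).c ⊆ T (s n).x (s n).U (s n).c := by
    intro n
    rw [hs]
    exact h2 n (s n)
  have hcl : ∀ n, closure {a : K | a - (s (n + 1)).x.1 ∈ (s (n + 1)).U} ⊆
      {a : K | a - (s n).x.1 ∈ (s n).U} := by
    intro n
    rw [hs]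
    exact h3 n (s n)
  obtain ⟨a, ha⟩ : (⋂ n, closure {a : K | a - (s (n + 1)).x.1 ∈ (s (n + 1)).U}).Nonempty := by
    apply IsCompact.nonempty_iInter_of_sequence_nonempty_isCompact_isClosed
    · intro n
      exact (hcl (n + 1)).trans subset_closure
    · intro n
      exact ⟨(s (n + 1)).x.1, subset_closure (by simpa using (s (n + 1)).h0)⟩
    · exact isClosed_closure.isCompact
    · exact fun n => isClosed_closure
  obtain ⟨b, hb⟩ := exists_ub (fun n => (s n).x.2 + (s n).c)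
  have hmem : ∀ n, ((a, b) : K × L) ∈ T (s n).x (s n).U (s n).c := by
    intro n
    have hb1 : (s n).c ≤ b - (s n).x.2 := by
      rw [le_sub_iff_add_le, add_comm]
      exact hb n
    exact ⟨hcl n (mem_iInter.1 ha n), (s n).hc.trans hb1, fun _ => hb1⟩
  refine ⟨((a, b) : K × L), hT (hmem 0), mem_iInter.2 fun n => ?_⟩
  have := hmem (n + 1)
  rw [hs] at this
  exact h1 n (s n) this

theorem isOpen_coord (i : ℕ) : IsOpen {u : K | u i = 0} := by
  have h : Continuous fun u : K => u i := continuous_apply i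
  exact h.isOpen_preimage _ (isOpen_discrete ({0} : Set (ZMod 2)))

theorem not_two : ∃ W : ℕ → Set G0, (∀ n, IsOpen (W n)) ∧ (∀ n, (W n).Nonempty) ∧
    (∀ n, W (n + 1) ⊆ W n) ∧ ⋂ n, closure {x | -x ∈ W n} = ∅ := by
  refine ⟨fun n => {p : G0 | p.1 ≠ 0 ∧ (∀ i < n, p.1 i = 0) ∧ 0 ≤ p.2}, ?_, ?_, ?_, ?_⟩
  · intro n
    rw [isOpen_iff']
    rintro x ⟨hx1, hx2, hx3⟩
    refine ⟨{u | x.1 + u ≠ 0} ∩ ⋂ i ∈ Finset.range n, {u : K | u i = 0}, ?_, ?_, 0, le_rfl, ?_⟩
    · refine IsOpen.inter ?_ ?_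
      · exact isOpen_ne.preimage (continuous_const.add continuous_id)
      · refine isOpen_biInter_finset fun i _ => ?_
        exact isOpen_coord i
    · refine ⟨by simpa using hx1, ?_⟩
      simp
    · rintro v ⟨⟨v1, v2⟩, v3, -⟩
      refine ⟨v1, fun i hi => ?_, add_nonneg hx3 v3⟩
      have h2 : v.1 i = 0 := by
        have := mem_iInter₂.1 v2 i (Finset.mem_range.2 hi)
        exact this
      change x.1 i + v.1 i = 0
      rw [hx2 i hi, h2, add_zero]
  · intro n
    refine ⟨((Pi.single n 1, 0) : K × L), ?_, ?_, le_rfl⟩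
    · intro h
      have := congrFun h n
      simp at this
    · intro i hi
      exact Pi.single_eq_of_ne (by omega) _
  · rintro n x ⟨h1, h2, h3⟩
    exact ⟨h1, fun i hi => h2 i (by omega), h3⟩
  · rw [eq_empty_iff_forall_notMem]
    intro y hy
    rw [mem_iInter] at hy
    by_cases hy1 : y.1 = 0
    · obtain ⟨c, hc1, hc2, -⟩ := exists_ub3 (-y.2 + 1) 0 0
      obtain ⟨z, hzT, hz1, -, hz3⟩ := mem_closure_iff.1 (hy 0) (T y univ c)
        (isOpen_T y isOpen_univ hc2) (mem_T_self y (mem_univ _) c)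
      have hne : (z - y).1 ≠ 0 := by
        intro h
        apply hz1
        have h' : z.1 - y.1 = 0 := h
        rw [hy1, sub_zero] at h'
        change -z.1 = 0
        rw [h', neg_zero]
      have h1 : c ≤ z.2 - y.2 := hzT.2.2 hne
      have h2 : 0 ≤ -z.2 := hz3
      have h3 : -y.2 + 1 ≤ -y.2 := by
        calc -y.2 + 1 ≤ c := hc1
          _ ≤ z.2 - y.2 := h1
          _ = -y.2 + z.2 := by abel
          _ ≤ -y.2 + 0 := by
            apply add_le_add_right
            rwa [neg_nonneg] at h2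
          _ = -y.2 := add_zero _
      exact absurd ((add_le_iff_nonpos_right _).1 h3) (not_le_of_gt one_pos')
    · obtain ⟨i, hi⟩ : ∃ i, y.1 i ≠ 0 := by
        by_contra hcon
        push Not at hcon
        exact hy1 (funext hcon)
      have hO : IsOpen {u : K | u i = 0} := isOpen_coord i
      obtain ⟨z, hzT, -, hz2, -⟩ := mem_closure_iff.1 (hy (i + 1)) (T y {u : K | u i = 0} 0)
        (isOpen_T y hO le_rfl) (mem_T_self y (U := {u : K | u i = 0}) rfl 0)
      have h1 : z.1 i - y.1 i = 0 := hzT.1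
      have h2 : -z.1 i = 0 := hz2 i (Nat.lt_succ_self i)
      rw [neg_eq_zero] at h2
      rw [h2, zero_sub, neg_eq_zero] at h1
      exact hi h1

end Build

open Build in
/-- **There is an abelian pseudocompact Baire paratopological group which is not 2-pseudocompact.** -/
theorem result : ∃ (G : Type) (_ : CommGroup G) (_ : TopologicalSpace G),
    ContinuousMul G ∧ T0Space G ∧ Pseudocompact G ∧ Baire G ∧ ¬ TwoPseudocompact G := by
  refine ⟨Multiplicative G0, inferInstance, inferInstance, inferInstance, ?_, ?_, ?_, ?_⟩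
  · exact t0
  · exact pseudocompact
  · exact baire
  · intro h
    obtain ⟨W, h1, h2, h3, h4⟩ := not_two
    obtain ⟨x, hx⟩ := h W h1 h2 h3
    have : x ∈ ⋂ n, closure {x : G0 | -x ∈ W n} := hx
    rw [h4] at this
    exact this

end Pool.Agent.Results.MP_39d387_al.PseudocompactBaire
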